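import Pool.Agent.Lib.MP_5949a1_co_h34.Full

/-!
# MP_5949a1_co: as many sums as for random elements; the share `1 - 1/e` is always attained

`nuHat (ZMod n) m h` is the largest size of a restricted `h`-fold sumset of an `m`-element
subset of `ZMod n`. The trivial bound is `min n (m.choose h)`. If `m.choose h ≤ n`, then at least
as many elements are covered as the expected number of different values of `m.choose h` random
elements; in all cases at least the share `1 - 1/e` of the trivial bound is attained; for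
large `n` the share of covered elements is at least `1 - exp (-(m.choose h) / n) - ε`, uniformly
in `m` and `h`; and for large `n` everything is covered if `m.choose h ≥ (1 + δ) n ln n`.
-/

set_option autoImplicit false

namespace Pool.Agent.Results.MP_5949a1_co.ConstantE

open Pool.Agent.MP_5949a1

theorem result :
    (∀ (n m h : ℕ) [NeZero n], 1 ≤ h → h ≤ m → m ≤ n →
      (m.choose h ≤ n →
        (n : ℝ) * (1 - (1 - 1 / (n : ℝ)) ^ m.choose h) ≤ (nuHat (ZMod n) m h : ℝ)) ∧
      (1 - Real.exp (-1)) * ((min n (m.choose h) : ℕ) : ℝ) ≤ (nuHat (ZMod n) m h : ℝ) ∧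
      (∀ K : ℕ, 1 ≤ K → K * n ≤ m.choose h →
        K * (n - Nat.sqrt (4 * K * n)) ≤ (K + 1) * nuHat (ZMod n) m h) ∧
      min n (m.choose h) < 2 * nuHat (ZMod n) m h ∧
      (m.choose h ≤ n → n * m.choose h ≤ nuHat (ZMod n) m h * (n + m.choose h - 1))) ∧
    (∀ ε : ℝ, 0 < ε → ∃ N : ℕ, ∀ (n : ℕ) [NeZero n], N ≤ n → ∀ m h : ℕ,
      1 ≤ h → h ≤ m → m ≤ n →
      (n : ℝ) * (1 - Real.exp (-((m.choose h : ℝ) / (n : ℝ))) - ε) ≤
        (nuHat (ZMod n) m h : ℝ)) ∧
    (∀ δ : ℝ, 0 < δ → ∃ N : ℕ, ∀ (n : ℕ) [NeZero n], N ≤ n → ∀ m h : ℕ,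
      1 ≤ h → h ≤ m → m ≤ n → (1 + δ) * ((n : ℝ) * Real.log (n : ℝ)) ≤ (m.choose h : ℝ) →
      nuHat (ZMod n) m h = n) := by
  refine ⟨fun n m h _ hh hhm hmn => ?_, asym, full⟩
  have hc : Fintype.card (ZMod n) = n := ZMod.card n
  refine ⟨fun hC => ?_, ?_, fun K hK hC => ?_, ?_, fun hC => ?_⟩
  · have := bound_small (G := ZMod n) (m := m) (h := h) (by rw [hc]; exact hmn)
      (by rw [hc]; exact hC)
    rwa [hc] at this
  · have := const_bound (G := ZMod n) h hh hhm (by rw [hc]; exact hmn)
    rwa [hc] at this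
  · have := large (G := ZMod n) K hK h hh hhm (by rw [hc]; exact hmn) (by rw [hc]; exact hC)
    rwa [hc] at this
  · have := half (G := ZMod n) h hh hhm (by rw [hc]; exact hmn)
    rwa [hc] at this
  · have := lower_small (G := ZMod n) hh hhm (by rw [hc]; exact hmn) (by rw [hc]; exact hC)
    rwa [hc] at this

end Pool.Agent.Results.MP_5949a1_co.ConstantE
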