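import Pool.Agent.Lib.MP_5949a1_co_h64.Window

/-!
# MP_5949a1_co: a window in which the trivial upper bound is not attained, for every `h ≥ 2`

If `m` is large in terms of `h`, then `nuHat (ZMod n) m h < m.choose h` for all `n` between
`m.choose h` and about `(h.choose (h / 2)) * m.choose h`.
-/

set_option autoImplicit false

namespace Pool.Agent.Results.MP_5949a1_co.StrictWindow

open Pool.Agent.MP_5949a1

theorem result (n m h : ℕ) [NeZero n] (hm : 2 * h ≤ m) (hmn : m ≤ n)
    (hn : n + (2 * h + 2) * 8 ^ h * m ^ (h - 1) < h.choose (h / 2) * m.choose h) :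
    nuHat (ZMod n) m h < m.choose h := by
  by_contra hcon
  push Not at hcon
  have h1 := window n m h (h / 2) (Nat.div_le_self h 2) hm hmn hcon
  omega

end Pool.Agent.Results.MP_5949a1_co.StrictWindow
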